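import Pool.Agent.Q281.QC.Stmt2

set_option autoImplicit false

/-!
# MP_c82d9a_nt: a Dwork type q-congruence with weight `[3k+1]` and factor `8^k` (Q1)

For every `m ≥ 1` and every odd `n > 1` the congruence of Q1 holds; for `n = 1` (where `Φ_1 = q - 1`)
it fails for `m = 2`.

Method. Put `T(N,k) = (-1)^k [3k+1] ∏_{i<k} (1-q^(2i+1+N)) (1-q^(2i+1-N)) (1-q^(2i+1)) /
((1-q^(i+1+N)) (1-q^(i+1-N)) (1-q^(i+1)))`. For odd `N = 2M+1` the sum of `T(N,k)` over `k ≤ M` equals
`(-1)^M q^(M^2) [N]` (telescoping in `N`). For `N = s n` and modulo `(q^n-1)^2` the sum over a block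
`l n ≤ k < (l+1) n` is `w_l(s) B_l` with a rational number `w_l(s)` and `B_l` independent of `s` (`s = 0`
or `s > l` odd). The evaluations at `s = 1, 3, 5, …` form a triangular system for the `B_l`, which has
the same solution as the system for `n = 1`, `q → 1`; then one puts `s = 0`.
-/

namespace Pool.Agent.Results.MP_c82d9a_nt.DworkThreeKPlusOne

open Polynomial Pool.Agent.Q281.QCD Pool.Agent.Q281

/-- `L_{m,n}(q)`. -/
noncomputable def L (m n : ℕ) : RatFunc ℚ := ∑ j ∈ Finset.range (m * n),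
  (-1) ^ j * qint (3 * j + 1) * (qp q (q ^ 2) j / qp q q j) ^ 3

/-- `∑_{j<m} (-1)^j (3j+1) b_j` with `b_j = 8^j (1/2)_j^3 / j!^3`. -/
noncomputable def c (m : ℕ) : ℚ := ∑ j ∈ Finset.range m,
  (-1) ^ j * (3 * j + 1) * (8 ^ j * rise (1 / 2) j ^ 3 / (j.factorial : ℚ) ^ 3)

/-- `R_{m,n}(q)`. -/
noncomputable def R (m n : ℕ) : RatFunc ℚ :=
  (-1) ^ ((n - 1) / 2) * q ^ ((n - 1) ^ 2 / 4) * qint n * ((c m : ℚ) : RatFunc ℚ)

/-- The congruence for all odd `n > 1`, and its failure for `n = 1`, `m = 2`. -/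
theorem result : (∀ m n : ℕ, 1 ≤ m → 1 < n → Odd n → CongrPhiSq n (L m n) (R m n)) ∧
    ¬ CongrPhiSq 1 (L 2 1) (R 2 1) := by
  constructor
  · intro m n _ hn hodd
    obtain ⟨h, hh, rfl, e1, e2⟩ := odd_form hodd hn
    have key := QC.dworkB hh m
    apply congr_of_cg (by omega)
    have eS : L m (2 * h + 1) = ∑ k ∈ Finset.range (m * (2 * h + 1)),
        QC.sgB k * QC.PP 1 1 1 1 0 k := by
      rw [L]
      refine Finset.sum_congr rfl fun k _ => ?_
      have h1 := QC.PP_pb 0 k
      rw [pow_zero, Nat.cast_zero] at h1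
      rw [h1, pb_one, QC.sgB]
      rfl
    have eR : R m (2 * h + 1) = ((-1) ^ h * QC.q ^ (h ^ 2) * QC.qn (2 * h + 1)) *
        ((∑ l ∈ Finset.range m, QC.ww 1 1 0 l * ((-1) ^ l * (3 * l + 1)) : ℚ) : RatFunc ℚ) := by
      rw [R, e1, e2, c, qint_eq]
      congr 2
      refine Finset.sum_congr rfl fun l _ => ?_
      rw [ww1]
      ring
    rw [eS, eR]
    exact key
  · have hq2 : (1 : RatFunc ℚ) - q ≠ 0 := QC.one_sub_q_ne
    have hL : L 2 1 = 1 - (1 + q + q ^ 2 + q ^ 3) := by
      rw [L, show 2 * 1 = 2 from rfl, Finset.sum_range_succ, Finset.sum_range_one]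
      simp only [qp, qint, Finset.prod_range_succ, Finset.range_zero, Finset.prod_empty,
        Finset.sum_range_succ, Finset.sum_empty, pow_zero, pow_one, mul_one, one_mul, mul_zero,
        zero_add, one_pow, div_one]
      rw [div_self hq2]
      ring
    have hR : R 2 1 = ((-3 : ℚ) : RatFunc ℚ) := by
      have hc : c 2 = -3 := by
        rw [c, Finset.sum_range_succ, Finset.sum_range_one]
        simp only [rise, Finset.prod_range_succ, Finset.range_zero, Finset.prod_empty,
          Nat.factorial]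
        norm_num
      rw [R, hc]
      simp [qint]
    refine not_congr_one (D := 1) (F := 3 - X - X ^ 2 - X ^ 3) ?_ ?_
    · rw [hL, hR]
      simp only [map_sub, map_pow, map_one, map_ofNat]
      rw [RatFunc.algebraMap_X]
      push_cast
      ring
    · simp [derivative_pow]
      norm_num

end Pool.Agent.Results.MP_c82d9a_nt.DworkThreeKPlusOne
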